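import Mathlib
import Pool.Agent.Lib.MP_209724_lc.OV.Defs

namespace Pool.Agent.Lib.MP_209724_lc.SC2

open Module

/-- the vectors killed by the rows `(a_ij y_j)_j` -/
def rowSub {k F : Type} [Field k] [Field F] [Algebra k F] {n : ℕ} {ι : Type} (y : Fin n → F)
    (a : ι → Fin n → k) : Submodule F (Fin n → F) where
  carrier := {v | ∀ i, ∑ j, algebraMap k F (a i j) * y j * v j = 0}
  add_mem' := by
    intro v w hv hw i
    have h : ∀ j, algebraMap k F (a i j) * y j * (v + w) j =
        algebraMap k F (a i j) * y j * v j + algebraMap k F (a i j) * y j * w j := fun j => by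
      rw [Pi.add_apply]; ring
    rw [Finset.sum_congr rfl fun j _ => h j, Finset.sum_add_distrib, hv i, hw i, add_zero]
  zero_mem' := by
    intro i
    simp
  smul_mem' := by
    intro c v hv i
    have h : ∀ j, algebraMap k F (a i j) * y j * (c • v) j =
        c * (algebraMap k F (a i j) * y j * v j) := fun j => by
      rw [Pi.smul_apply, smul_eq_mul]; ring
    rw [Finset.sum_congr rfl fun j _ => h j, ← Finset.mul_sum, hv i, mul_zero]

theorem mem_rowSub {k F : Type} [Field k] [Field F] [Algebra k F] {n : ℕ} {ι : Type}
    {y : Fin n → F} {a : ι → Fin n → k} {v : Fin n → F} :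
    v ∈ rowSub y a ↔ ∀ i, ∑ j, algebraMap k F (a i j) * y j * v j = 0 := Iff.rfl

theorem a2_mem {k F : Type} [Field k] [Field F] [Algebra k F] (s : Set F) (a : F) :
    a ∈ (AlgebraicIndependent.matroid k F).closure s ↔ IsAlgebraic (Algebra.adjoin k s) a := by
  rw [AlgebraicIndependent.matroid_closure_eq]
  rfl

theorem a2_trans {k F : Type} [Field k] [Field F] [Algebra k F] {s t : Set F}
    (h : ∀ a ∈ s, IsAlgebraic (Algebra.adjoin k t) a) {b : F} (hb : IsAlgebraic (Algebra.adjoin k s) b) :
    IsAlgebraic (Algebra.adjoin k t) b := by
  rw [← a2_mem] at hb ⊢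
  exact (AlgebraicIndependent.matroid k F).closure_subset_closure_of_subset_closure
    (fun a ha => (a2_mem t a).2 (h a ha)) hb

/-- One more independent element. -/
theorem algInd_snoc {k F ι : Type} [Field k] [Field F] [Algebra k F] {l : ℕ} {z : ι → F}
    {g : Fin l → F} (h : AlgebraicIndependent k (Sum.elim z g)) {c : F}
    (hc : Transcendental (Algebra.adjoin k (Set.range (Sum.elim z g))) c) :
    AlgebraicIndependent k (Sum.elim z (Fin.snoc g c : Fin (l + 1) → F)) := by
  have h1 := (h.option_iff_transcendental c).2 hc
  let f : ι ⊕ Fin (l + 1) → Option (ι ⊕ Fin l) :=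
    Sum.elim (fun i => some (Sum.inl i))
      (fun j => Fin.lastCases (motive := fun _ => Option (ι ⊕ Fin l)) none
        (fun j => some (Sum.inr j)) j)
  have hf : Function.Injective f := by
    rintro (i | i) (j | j) hij
    · simpa [f] using hij
    · induction j using Fin.lastCases with
      | last => simp [f] at hij
      | cast j => simp [f] at hij
    · induction i using Fin.lastCases with
      | last => simp [f] at hij
      | cast i => simp [f] at hij
    · induction i using Fin.lastCases with
      | last =>
        induction j using Fin.lastCases with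
        | last => rfl
        | cast j => simp [f] at hij
      | cast i =>
        induction j using Fin.lastCases with
        | last => simp [f] at hij
        | cast j => simpa [f] using hij
  have h2 := h1.comp f hf
  have h3 : (fun o : Option (ι ⊕ Fin l) => o.elim c (Sum.elim z g)) ∘ f =
      Sum.elim z (Fin.snoc g c : Fin (l + 1) → F) := by
    funext i
    rcases i with i | i
    · rfl
    · induction i using Fin.lastCases with
      | last => simp [f]
      | cast i => simp [f]
  rw [h3] at h2
  exact h2

/-- SC2-2: the choice of the rows. `U` a subspace of `F^n` of dimension `≤ e`, `z` a part of a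
transcendence basis with `e` more elements, everything algebraic over `k(z, y)`: for `l ≤ e` there are
`l` linear forms in the `y j` over `k`, algebraically independent over `k(z)`, which cut down the
dimension of `U` to `e - l`. -/
theorem exists_rows {k F : Type} [Field k] [Field F] [Algebra k F] {n d e : ℕ}
    (y : Fin n → F) (hy : ∀ i, y i ≠ 0) (z : Fin d → F) (hz : AlgebraicIndependent k z)
    (hgen : ∀ b : F, IsAlgebraic (Algebra.adjoin k (Set.range z ∪ Set.range y)) b)
    (htd : ((d + e : ℕ) : Cardinal) ≤ Algebra.trdeg k F)
    (U : Submodule F (Fin n → F)) (hU : finrank F U ≤ e) :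
    ∀ l ≤ e, ∃ a : Fin l → Fin n → k,
      AlgebraicIndependent k (Sum.elim z fun i => ∑ j, algebraMap k F (a i j) * y j) ∧
      finrank F (U ⊓ rowSub y a : Submodule F (Fin n → F)) ≤ e - l := by
  classical
  intro l
  induction l with
  | zero =>
    intro _
    refine ⟨fun i => i.elim0, ?_, ?_⟩
    · have h1 : (Sum.elim z fun i : Fin 0 => ∑ j, algebraMap k F
          ((fun i : Fin 0 => (i.elim0 : Fin n → k)) i j) * y j) =
          z ∘ (Equiv.sumEmpty (Fin d) (Fin 0)) := by
        funext i
        rcases i with i | i
        · rfl
        · exact i.elim0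
      rw [h1]
      exact hz.comp _ (Equiv.injective _)
    · rw [Nat.sub_zero]
      refine (Submodule.finrank_mono inf_le_left).trans hU
  | succ l ih =>
    intro hl
    obtain ⟨a, ha1, ha2⟩ := ih (by omega)
    obtain ⟨g, hg⟩ : ∃ g : Fin l → F, g = fun i => ∑ j, algebraMap k F (a i j) * y j := ⟨_, rfl⟩
    rw [← hg] at ha1
    -- the first bad set
    let S1 : (Fin n → k) → Prop := fun b =>
      IsAlgebraic (Algebra.adjoin k (Set.range (Sum.elim z g))) (∑ j, algebraMap k F (b j) * y j)
    have hS1sub : ∀ b c, S1 (b + c) → S1 c → S1 b := by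
      intro b c hbc hc
      have h1 := hbc.sub hc
      have h2 : ∑ j, algebraMap k F ((b + c) j) * y j - ∑ j, algebraMap k F (c j) * y j =
          ∑ j, algebraMap k F (b j) * y j := by
        rw [← Finset.sum_sub_distrib]
        refine Finset.sum_congr rfl fun j _ => ?_
        rw [Pi.add_apply, map_add]
        ring
      rw [h2] at h1
      exact h1
    have hself : ∀ (s : Set F) (b : F), b ∈ s → IsAlgebraic (Algebra.adjoin k s) b := fun s b hb =>
      isAlgebraic_algebraMap (⟨b, Algebra.subset_adjoin hb⟩ : Algebra.adjoin k s)
    have hex1 : ∃ b, ¬ S1 b := by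
      by_contra hcon
      push Not at hcon
      have halg : ∀ b : F, IsAlgebraic (Algebra.adjoin k (Set.range (Sum.elim z g))) b := by
        intro b
        refine a2_trans ?_ (hgen b)
        rintro c (hc | ⟨j, rfl⟩)
        · obtain ⟨i, rfl⟩ := hc
          exact hself _ _ ⟨Sum.inl i, rfl⟩
        · have h1 := hcon (Pi.single j 1)
          simp only [S1] at h1
          rw [Finset.sum_eq_single j (fun i _ hi => by
            rw [Pi.single_eq_of_ne hi, map_zero, zero_mul]) (fun h => absurd (Finset.mem_univ _) h),
            Pi.single_eq_same, map_one, one_mul] at h1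
          exact h1
      have hA : Algebra.IsAlgebraic (Algebra.adjoin k (Set.range (Sum.elim z g))) F := ⟨halg⟩
      have hb : IsTranscendenceBasis k (Sum.elim z g) := ha1.isTranscendenceBasis_iff_isAlgebraic.2 hA
      have h2 := hb.cardinalMk_eq_trdeg
      rw [Cardinal.mk_sum, Cardinal.mk_fin, Cardinal.mk_fin, Cardinal.lift_natCast,
        Cardinal.lift_natCast, ← Nat.cast_add] at h2
      rw [← h2, Nat.cast_le] at htd
      omega
    obtain ⟨b1, hb1⟩ := hex1
    by_cases hV : U ⊓ rowSub y a = ⊥
    · refine ⟨Fin.snoc (α := fun _ => Fin n → k) a b1, ?_, ?_⟩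
      · have h1 := algInd_snoc ha1 hb1
        have h2 : (fun i : Fin (l + 1) => ∑ j, algebraMap k F
            ((Fin.snoc (α := fun _ => Fin n → k) a b1 : Fin (l + 1) → Fin n → k) i j) * y j) =
            (Fin.snoc g (∑ j, algebraMap k F (b1 j) * y j) : Fin (l + 1) → F) := by
          funext i
          induction i using Fin.lastCases with
          | last => simp
          | cast i => simp [hg]
        rw [h2]
        exact h1
      · have h1 : U ⊓ rowSub y (Fin.snoc (α := fun _ => Fin n → k) a b1 : Fin (l + 1) → Fin n → k) ≤
            U ⊓ rowSub y a := by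
          refine inf_le_inf_left _ ?_
          intro v hv i
          have h2 := hv i.castSucc
          rw [Fin.snoc_castSucc (α := fun _ => Fin n → k)] at h2
          exact h2
        rw [hV, le_bot_iff] at h1
        rw [h1, finrank_bot]
        exact Nat.zero_le _
    · obtain ⟨v, hv, hv0⟩ := (Submodule.ne_bot_iff _).1 hV
      let S2 : (Fin n → k) → Prop := fun b => ∑ j, algebraMap k F (b j) * y j * v j = 0
      have hS2sub : ∀ b c, S2 (b + c) → S2 c → S2 b := by
        intro b c hbc hc
        have h2 : ∑ j, algebraMap k F ((b + c) j) * y j * v j - ∑ j, algebraMap k F (c j) * y j * v j =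
            ∑ j, algebraMap k F (b j) * y j * v j := by
          rw [← Finset.sum_sub_distrib]
          refine Finset.sum_congr rfl fun j _ => ?_
          rw [Pi.add_apply, map_add]
          ring
        show ∑ j, algebraMap k F (b j) * y j * v j = 0
        rw [← h2]
        rw [show ∑ j, algebraMap k F ((b + c) j) * y j * v j = 0 from hbc,
          show ∑ j, algebraMap k F (c j) * y j * v j = 0 from hc, sub_zero]
      obtain ⟨j₀, hj₀⟩ : ∃ j, v j ≠ 0 := by
        by_contra hcon
        push Not at hcon
        exact hv0 (funext hcon)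
      have hb2 : ¬ S2 (Pi.single j₀ 1) := by
        intro h1
        simp only [S2] at h1
        rw [Finset.sum_eq_single j₀ (fun i _ hi => by
            rw [Pi.single_eq_of_ne hi, map_zero, zero_mul, zero_mul])
            (fun h => absurd (Finset.mem_univ _) h),
            Pi.single_eq_same, map_one, one_mul] at h1
        exact (mul_ne_zero (hy j₀) hj₀) h1
      obtain ⟨b, hbS1, hbS2⟩ : ∃ b, ¬ S1 b ∧ ¬ S2 b := by
        by_cases h1 : S2 b1
        · by_cases h2 : S1 (Pi.single j₀ 1)
          · refine ⟨b1 + Pi.single j₀ 1, fun h3 => hb1 (hS1sub _ _ h3 h2), fun h3 => hb2 ?_⟩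
            rw [add_comm] at h3
            exact hS2sub _ _ h3 h1
          · exact ⟨_, h2, hb2⟩
        · exact ⟨b1, hb1, h1⟩
      refine ⟨Fin.snoc (α := fun _ => Fin n → k) a b, ?_, ?_⟩
      · have h1 := algInd_snoc ha1 hbS1
        have h2 : (fun i : Fin (l + 1) => ∑ j, algebraMap k F
            ((Fin.snoc (α := fun _ => Fin n → k) a b : Fin (l + 1) → Fin n → k) i j) * y j) =
            (Fin.snoc g (∑ j, algebraMap k F (b j) * y j) : Fin (l + 1) → F) := by
          funext i
          induction i using Fin.lastCases with
          | last => simp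
          | cast i => simp [hg]
        rw [h2]
        exact h1
      · have h1 : U ⊓ rowSub y (Fin.snoc (α := fun _ => Fin n → k) a b : Fin (l + 1) → Fin n → k) <
            U ⊓ rowSub y a := by
          refine lt_of_le_of_ne ?_ ?_
          · refine inf_le_inf_left _ ?_
            intro v hv i
            have h2 := hv i.castSucc
            rw [Fin.snoc_castSucc (α := fun _ => Fin n → k)] at h2
            exact h2
          · intro h3
            rw [← h3] at hv
            have h4 := hv.2 (Fin.last l)
            rw [Fin.snoc_last (α := fun _ => Fin n → k)] at h4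
            exact hbS2 h4
        have h2 := Submodule.finrank_lt_finrank_of_lt h1
        omega

end Pool.Agent.Lib.MP_209724_lc.SC2
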