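import Mathlib
import Pool.Agent.Lib.MP_209724_lc.SC.Ed2
import Pool.Agent.Lib.MP_209724_lc.SC.Fin7
import Pool.Agent.Lib.MP_209724_lc.SC.Sp0
import Pool.Agent.Lib.MP_209724_lc.HS.Sector
import Pool.Agent.Lib.MP_209724_lc.SC.FF1
import Pool.Agent.Lib.MP_209724_lc.SC2.A2
import Pool.Agent.Lib.MP_209724_lc.SC.Core
import Pool.Agent.Lib.MP_209724_lc.SC.Final2

section

namespace Pool.Agent.Lib.MP_209724_lc.SC2

open MvPolynomial Pool.Agent.Lib.MP_209724_lc.SC

/-- Transfer of algebraic elements along a homomorphism of fields. -/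
theorem tr_alg {R S F Ω : Type} [Field R] [Field S] [Field F] [Field Ω] [Algebra R F] [Algebra S Ω]
    (σ : F →+* Ω) (hσ : ∀ c : R, ∃ c' : S, σ (algebraMap R F c) = algebraMap S Ω c') (T : Set F)
    (b : F) (hb : IsAlgebraic (Algebra.adjoin R T) b) :
    IsAlgebraic (Algebra.adjoin S (σ '' T)) (σ b) := by
  have h : ∀ a ∈ Algebra.adjoin R T, σ a ∈ Algebra.adjoin S (σ '' T) := by
    intro a ha
    induction ha using Algebra.adjoin_induction with
    | mem x hx => exact Algebra.subset_adjoin (Set.mem_image_of_mem σ hx)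
    | algebraMap r =>
      obtain ⟨c', hc'⟩ := hσ r
      rw [hc']
      exact Subalgebra.algebraMap_mem _ _
    | add x y _ _ hx hy =>
      rw [map_add]
      exact Subalgebra.add_mem _ hx hy
    | mul x y _ _ hx hy =>
      rw [map_mul]
      exact Subalgebra.mul_mem _ hx hy
  let f : Algebra.adjoin R T →+* Algebra.adjoin S (σ '' T) :=
    RingHom.codRestrict (σ.comp ((Algebra.adjoin R T).val : Algebra.adjoin R T →+* F)) _
      fun a => h a a.2
  refine hb.ringHom_of_comp_eq f σ (fun p q hpq => ?_) ?_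
  · have h1 : σ (p : F) = σ (q : F) := congrArg Subtype.val hpq
    exact Subtype.ext (σ.injective h1)
  · ext
    rfl

/-- The polynomials over `ℂ` vanishing at the specialised point. -/
noncomputable def kerS {n : ℕ} {Ω : Type} [Field Ω] [Algebra ℂ Ω] (ξ η : Fin n → Ω) :
    Ideal (MvPolynomial (Fin n ⊕ Fin n) ℂ) :=
  RingHom.ker (aeval (Sum.elim ξ η) : MvPolynomial (Fin n ⊕ Fin n) ℂ →ₐ[ℂ] Ω)

theorem mem_kerS {n : ℕ} {Ω : Type} [Field Ω] [Algebra ℂ Ω] {ξ η : Fin n → Ω}
    {f : MvPolynomial (Fin n ⊕ Fin n) ℂ} : f ∈ kerS ξ η ↔ aeval (Sum.elim ξ η) f = 0 := Iff.rfl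

/-- SC2-5: the specialised point satisfies the equations of `V`. -/
theorem le_kerS {n : ℕ} (k : Type) [Field k] [Algebra k ℂ]
    (Q : Ideal (MvPolynomial (Fin n ⊕ Fin n) ℂ)) [Q.IsPrime]
    (Ik : Ideal (MvPolynomial (Fin n ⊕ Fin n) k)) (hQ : Q = Ik.map (map (algebraMap k ℂ)))
    {Ω : Type} [Field Ω] [Algebra ℂ Ω] (σ : FK k Q →+* Ω)
    (hσ : ∀ c : k, σ (algebraMap k (FK k Q) c) = algebraMap ℂ Ω (algebraMap k ℂ c)) :
    Q ≤ kerS (fun i => σ (xK k Q i)) fun i => σ (yK k Q i) := by
  have key : ∀ f : MvPolynomial (Fin n ⊕ Fin n) k,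
      aeval (Sum.elim (fun i => σ (xK k Q i)) fun i => σ (yK k Q i)) (map (algebraMap k ℂ) f) =
        σ (aeval (Sum.elim (xK k Q) (yK k Q)) f) := by
    intro f
    induction f using MvPolynomial.induction_on with
    | C a => rw [map_C, aeval_C, aeval_C, hσ]
    | add p q hp hq => rw [map_add, map_add, map_add, map_add, hp, hq]
    | mul_X p i hp =>
      rw [map_mul, map_mul, map_mul, map_mul, hp, map_X, aeval_X, aeval_X]
      rcases i with i | i <;> rfl
  have h1 : Ik.map (map (algebraMap k ℂ)) ≤ kerS (fun i => σ (xK k Q i)) fun i => σ (yK k Q i) := by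
    rw [Ideal.map_le_iff_le_comap]
    intro f hf
    rw [Ideal.mem_comap, mem_kerS, key, (aeval_eq_zero_iff k Q f).2, map_zero]
    rw [hQ]
    exact Ideal.mem_map_of_mem _ hf
  exact hQ.trans_le h1

/-- SC2-6: the specialised point has the same relations between the `x` as `V`. -/
theorem same_x {n d : ℕ} (k : Type) [Field k] [Algebra k ℂ]
    (Q : Ideal (MvPolynomial (Fin n ⊕ Fin n) ℂ)) [Q.IsPrime]
    (Ik : Ideal (MvPolynomial (Fin n ⊕ Fin n) k)) (hQ : Q = Ik.map (map (algebraMap k ℂ)))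
    {L : Type} [Field L] [Algebra ℂ L] (x y : Fin n → L)
    (hxy : ∀ f : MvPolynomial (Fin n ⊕ Fin n) ℂ, aeval (Sum.elim x y) f = 0 ↔ f ∈ Q)
    (I : Fin d → Fin n)
    (hI2 : ∀ i, IsAlgebraic (Algebra.adjoin k (Set.range (xK k Q ∘ I))) (xK k Q i))
    {Ω : Type} [Field Ω] [Algebra ℂ Ω] (σ : FK k Q →+* Ω)
    (hσ : ∀ c : k, σ (algebraMap k (FK k Q) c) = algebraMap ℂ Ω (algebraMap k ℂ c))
    (hind : AlgebraicIndependent ℂ fun i => σ (xK k Q (I i))) (c : MvPolynomial (Fin n) ℂ) :
    rename Sum.inl c ∈ kerS (fun i => σ (xK k Q i)) (fun i => σ (yK k Q i)) ↔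
      rename Sum.inl c ∈ Q := by
  have hle := le_kerS k Q Ik hQ σ hσ
  refine ⟨fun hc => ?_, fun hc => hle hc⟩
  by_contra hcQ
  obtain ⟨θ, hθ1, hθ2, hθ3, hθ4⟩ := exists_theta k Q x y hxy
  have hcx : aeval x c ≠ 0 := by
    intro h0
    apply hcQ
    rw [← hxy, aeval_rename, Sum.elim_comp_inl]
    exact h0
  -- `x` is algebraic over `ℂ(x ∘ I)`
  have hxI : ∀ i, IsAlgebraic (Algebra.adjoin ℂ (Set.range (x ∘ I))) (x i) := by
    intro i
    have h1 := tr_alg (S := ℂ) θ (fun c => ⟨_, hθ2 c⟩) _ _ (hI2 i)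
    rw [hθ3, ← Set.range_comp] at h1
    have h2 : (θ ∘ xK k Q ∘ I : Fin d → L) = x ∘ I := by
      funext j
      exact hθ3 _
    rw [h2] at h1
    exact h1
  have hcI : IsAlgebraic (Algebra.adjoin ℂ (Set.range (x ∘ I))) (aeval x c) := by
    have h1 : ∀ f : MvPolynomial (Fin n) ℂ,
        IsAlgebraic (Algebra.adjoin ℂ (Set.range (x ∘ I))) (aeval x f) := by
      intro f
      induction f using MvPolynomial.induction_on with
      | C a =>
        rw [aeval_C]
        exact isAlgebraic_algebraMap (algebraMap ℂ (Algebra.adjoin ℂ (Set.range (x ∘ I))) a)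
      | add p q hp hq => rw [map_add]; exact hp.add hq
      | mul_X p i hp => rw [map_mul, aeval_X]; exact hp.mul (hxI i)
    exact h1 c
  obtain ⟨q, hq0, hq⟩ := hcI.exists_nonzero_coeff_and_aeval_eq_zero
    (mem_nonZeroDivisors_of_ne_zero hcx)
  have hP0 : ∀ b : L, b ∈ Algebra.adjoin ℂ (Set.range (x ∘ I)) →
      ∃ P : MvPolynomial (Fin d) ℂ, aeval (x ∘ I) P = b := by
    intro b h1
    rw [Algebra.adjoin_range_eq_range_aeval] at h1
    obtain ⟨P, hP⟩ := h1
    exact ⟨P, hP⟩
  have hP : ∀ i, ∃ P : MvPolynomial (Fin d) ℂ, aeval (x ∘ I) P = (q.coeff i : L) := fun i =>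
    hP0 _ (q.coeff i).2
  choose P hP using hP
  let H : MvPolynomial (Fin n) ℂ := ∑ i ∈ Finset.range (q.natDegree + 1), rename I (P i) * c ^ i
  have hH : aeval x H = 0 := by
    rw [← hq, Polynomial.aeval_eq_sum_range]
    simp only [H, map_sum, map_mul, map_pow, aeval_rename, hP, Algebra.smul_def]
    rfl
  have hHQ : rename (Sum.inl : Fin n → Fin n ⊕ Fin n) H ∈ Q := by
    rw [← hxy, aeval_rename, Sum.elim_comp_inl]
    exact hH
  have hHk := hle hHQ
  rw [mem_kerS, aeval_rename, Sum.elim_comp_inl] at hHk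
  rw [mem_kerS, aeval_rename, Sum.elim_comp_inl] at hc
  have h2 : aeval (fun i => σ (xK k Q i)) H = aeval (fun i => σ (xK k Q (I i))) (P 0) := by
    simp only [H, map_sum, map_mul, map_pow, aeval_rename, hc]
    rw [Finset.sum_range_succ']
    simp [Function.comp_def]
  rw [h2] at hHk
  have h3 : P 0 = 0 := (algebraicIndependent_iff.1 hind) _ hHk
  apply hq0
  apply Subtype.ext
  rw [← hP 0, h3, map_zero]
  rfl

end Pool.Agent.Lib.MP_209724_lc.SC2
end

section

namespace Pool.Agent.Lib.MP_209724_lc.SC2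

open Pool.Agent.Lib.MP_209724_lc.SC

private theorem sc2a_zpow {k F : Type} [Field k] [Field F] [Algebra k F] (D : Derivation k F F) {x y : F}
    (hy : y ≠ 0) (h : D y = y * D x) (b : ℤ) : D (y ^ b) = y ^ b * ((b : F) * D x) := by
  rw [Derivation.leibniz_zpow, h, zsmul_eq_mul, smul_eq_mul]
  have h1 : y ^ b = y ^ (b - 1) * y := by
    rw [← zpow_add_one₀ hy, sub_add_cancel]
  rw [h1]
  ring

private theorem sc2a_prod {k F : Type} [Field k] [Field F] [Algebra k F] (D : Derivation k F F) {n : ℕ}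
    {x y : Fin n → F} (hy : ∀ i, y i ≠ 0) (h : ∀ i, D (y i) = y i * D (x i)) (b : Fin n → ℤ)
    (S : Finset (Fin n)) :
    D (∏ j ∈ S, y j ^ b j) = (∏ j ∈ S, y j ^ b j) * ∑ j ∈ S, (b j : F) * D (x j) := by
  classical
  induction S using Finset.induction_on with
  | empty => simp
  | insert i S hi ih =>
    rw [Finset.prod_insert hi, Finset.sum_insert hi, Derivation.leibniz, ih, sc2a_zpow D (hy i) (h i),
      smul_eq_mul, smul_eq_mul]
    ring

/-- transcendence degree count -/
private theorem sc2a_count {k F : Type} [Field k] [Field F] [Algebra k F] {N : ℕ}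
    (Λ : IntermediateField k F) (htd : Algebra.trdeg k F = (N : Cardinal)) {κ κ' : Type}
    [Fintype κ] [Fintype κ'] {s : κ → F} (hs : AlgebraicIndependent Λ s)
    (t : κ' → F) (ht : AlgebraicIndependent k t) (htΛ : ∀ i, t i ∈ Λ) :
    Fintype.card κ + Fintype.card κ' ≤ N := by
  have h1 : AlgebraicIndependent k (Sum.elim s t) := by
    refine ht.sumElim_of_tower (S := Λ) ?_ hs
    rintro _ ⟨i, rfl⟩
    exact ⟨⟨t i, htΛ i⟩, rfl⟩
  have h2 := h1.cardinalMk_le_trdeg
  rw [htd, Cardinal.mk_sum, Cardinal.mk_fintype, Cardinal.mk_fintype, Cardinal.lift_natCast,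
    Cardinal.lift_natCast, ← Nat.cast_add, Nat.cast_le] at h2
  exact h2

/-- SC2-1: there are at most `e` linearly independent derivations compatible with `exp` on a strict
`V` of dimension `n + e`. (Proof: Ax's theorem and the dimensions of `B.V`.) -/
theorem der_bound {k F : Type} [Field k] [CharZero k] [Field F] [Algebra k F]
    {n e : ℕ} (D : Fin (e + 1) → Derivation k F F) (x y : Fin n → F) (hy : ∀ i, y i ≠ 0)
    (hxy : ∀ l i, D l (y i) = y i * D l (x i))
    (hlin : LinearIndependent F fun (l : Fin (e + 1)) (i : Fin n) => D l (x i))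
    (htd : Algebra.trdeg k F = ((n + e : ℕ) : Cardinal)) (hs : Strict k x y) : False := by
  classical
  obtain ⟨C, hC1, hC2⟩ := exists_max (consts D) x
  obtain ⟨s, hsI, -⟩ := ax_sub D x y hy hxy hlin C hC1 hC2
  have hCn : C.card ≤ n := by
    simpa using Finset.card_le_univ C
  by_cases hr : C.card = n
  · have h1 := sc2a_count (κ' := Fin 0) (consts D) htd hsI Fin.elim0
      (algebraicIndependent_empty_type_iff.2 (algebraMap k F).injective) (fun i => i.elim0)
    rw [Fintype.card_sum, Fintype.card_coe, Fintype.card_fin, Fintype.card_fin, hr] at h1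
    omega
  · have hex : ∀ j : Fin n, ∃ (N : ℤ) (m : Fin n → ℤ), j ∉ C → N ≠ 0 ∧ (∀ i, i ∉ C → m i = 0) ∧
        (N : F) * x j - ∑ i, (m i : F) * x i ∈ consts D := by
      intro j
      by_cases hj : j ∈ C
      · exact ⟨0, 0, fun h => absurd hj h⟩
      · obtain ⟨N, m, h⟩ := hC2 j hj
        exact ⟨N, m, fun _ => h⟩
    choose N m hNm using hex
    obtain ⟨B, hB⟩ : ∃ B : Matrix (Fin n) (Fin n) ℤ, B = fun i j =>
        if i ∈ C then 0 else (if j = i then N i else 0) - m i j := ⟨_, rfl⟩
    have hBC : ∀ i ∈ C, ∀ j, B i j = 0 := fun i hi j => by rw [hB]; simp [hi]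
    have hBN : ∀ i, i ∉ C → ∀ j, B i j = (if j = i then N i else 0) - m i j := fun i hi j => by
      rw [hB]; simp [hi]
    have hsum : ∀ i, ∑ j, (B i j : F) * x j ∈ consts D := by
      intro i
      by_cases hi : i ∈ C
      · have h0 : ∑ j, (B i j : F) * x j = 0 := by
          apply Finset.sum_eq_zero
          intro j _
          rw [hBC i hi j]
          simp
        rw [h0]
        exact zero_mem _
      · have h0 : ∑ j, (B i j : F) * x j = (N i : F) * x i - ∑ j, (m i j : F) * x j := by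
          have h1 : ∀ j, (B i j : F) * x j =
              (if j = i then (N i : F) * x i else 0) - (m i j : F) * x j := by
            intro j
            rw [hBN i hi j]
            by_cases hji : j = i
            · rw [hji]
              push_cast
              simp
              ring
            · simp [hji]
          rw [Finset.sum_congr rfl fun j _ => h1 j, Finset.sum_sub_distrib]
          simp
        rw [h0]
        exact (hNm i hi).2.2
    have hprod : ∀ i, ∏ j, y j ^ B i j ∈ consts D := by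
      intro i l
      rw [sc2a_prod (D l) hy (hxy l) (B i) Finset.univ]
      have h1 : D l (∑ j, (B i j : F) * x j) = ∑ j, (B i j : F) * D l (x j) := by
        rw [map_sum]
        apply Finset.sum_congr rfl
        intro j _
        rw [Derivation.leibniz, smul_eq_mul, smul_eq_mul]
        have h2 : D l ((B i j : ℤ) : F) = 0 := by
          exact Derivation.map_intCast (D l) (B i j)
        rw [h2, mul_zero, add_zero]
      rw [← h1, hsum i l, mul_zero]
    -- the rank
    have hrank : n - C.card ≤ (B.map (Int.cast : ℤ → ℚ)).rank := by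
      have h1 := Matrix.rank_submatrix_le (B.map (Int.cast : ℤ → ℚ))
        (Subtype.val : {i // i ∉ C} → Fin n) (Subtype.val : {i // i ∉ C} → Fin n)
      have h2 : (B.map (Int.cast : ℤ → ℚ)).submatrix (Subtype.val : {i // i ∉ C} → Fin n)
          (Subtype.val : {i // i ∉ C} → Fin n) = Matrix.diagonal fun i : {i // i ∉ C} => (N i : ℚ) := by
        ext i j
        rw [Matrix.submatrix_apply, Matrix.map_apply, hBN i i.2 j, (hNm i i.2).2.1 j j.2,
          Matrix.diagonal_apply]
        by_cases hij : i = j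
        · rw [hij]; simp
        · have : (j : Fin n) ≠ i := fun h => hij (Subtype.ext h.symm)
          simp [hij, this]
      rw [h2, Matrix.rank_of_det_ne_zero] at h1
      · rw [Fintype.card_subtype_compl, Fintype.card_fin, Fintype.card_coe] at h1
        exact h1
      · rw [Matrix.det_diagonal, Finset.prod_ne_zero_iff]
        intro i _
        exact_mod_cast (hNm i i.2).1
    have hB0 : B ≠ 0 := by
      intro h0
      rw [h0] at hrank
      have h1 : ((0 : Matrix (Fin n) (Fin n) ℤ).map (Int.cast : ℤ → ℚ)) = 0 := by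
        ext i j
        simp
      rw [h1, Matrix.rank_zero] at hrank
      omega
    obtain ⟨t, ht, htr⟩ := hs B hB0
    have htΛ : ∀ i, t i ∈ consts D := by
      intro i
      rcases htr i with ⟨j, hj⟩ | ⟨j, hj⟩
      · rw [← hj]
        exact hsum j
      · rw [← hj]
        exact hprod j
    have h1 := sc2a_count (consts D) htd hsI t ht htΛ
    rw [Fintype.card_sum, Fintype.card_coe, Fintype.card_fin, Fintype.card_fin] at h1
    omega

end Pool.Agent.Lib.MP_209724_lc.SC2
end

section

namespace Pool.Agent.Lib.MP_209724_lc.SC2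

open Module Pool.Agent.Lib.MP_209724_lc.SC

/-- the vectors `(D x_i)` for the derivations `D` compatible with `exp` -/
def expSub {k F : Type} [Field k] [Field F] [Algebra k F] {n : ℕ} (x y : Fin n → F) :
    Submodule F (Fin n → F) where
  carrier := {v | ∃ D : Derivation k F F, (∀ i, D (y i) = y i * D (x i)) ∧ ∀ i, v i = D (x i)}
  add_mem' := by
    rintro v w ⟨D, hD, hv⟩ ⟨E, hE, hw⟩
    refine ⟨D + E, fun i => ?_, fun i => ?_⟩
    · rw [Derivation.add_apply, Derivation.add_apply, hD, hE, mul_add]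
    · rw [Pi.add_apply, Derivation.add_apply, hv, hw]
  zero_mem' := ⟨0, fun i => by simp, fun i => by simp⟩
  smul_mem' := by
    rintro c v ⟨D, hD, hv⟩
    refine ⟨c • D, fun i => ?_, fun i => ?_⟩
    · rw [Derivation.smul_apply, Derivation.smul_apply, hD, smul_eq_mul, smul_eq_mul]
      ring
    · rw [Pi.smul_apply, Derivation.smul_apply, hv]

/-- SC2-3: the generic linear forms. -/
theorem exists_G {k F : Type} [Field k] [CharZero k] [Field F] [Algebra k F] {n d e : ℕ}
    (x y : Fin n → F) (hy : ∀ i, y i ≠ 0)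
    (hgen : IntermediateField.adjoin k (Set.range x ∪ Set.range y) = ⊤)
    (htd : Algebra.trdeg k F = ((n + e : ℕ) : Cardinal)) (hs : Strict k x y)
    (I : Fin d → Fin n) (hI : AlgebraicIndependent k (x ∘ I))
    (hI2 : ∀ i, IsAlgebraic (Algebra.adjoin k (Set.range (x ∘ I))) (x i)) :
    ∃ a : Fin e → Fin n → k,
      AlgebraicIndependent k (Sum.elim (x ∘ I) fun l => ∑ j, algebraMap k F (a l j) * y j) ∧
      ∀ D : Derivation k F F, (∀ i, D (y i) = y i * D (x i)) →
        (∀ l, D (∑ j, algebraMap k F (a l j) * y j) = 0) → D = 0 := by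
  classical
  have hself : ∀ (s : Set F) (b : F), b ∈ s → IsAlgebraic (Algebra.adjoin k s) b := fun s b hb =>
    isAlgebraic_algebraMap (⟨b, Algebra.subset_adjoin hb⟩ : Algebra.adjoin k s)
  have hall : ∀ b : F, IsAlgebraic (Algebra.adjoin k (Set.range (x ∘ I) ∪ Set.range y)) b := by
    intro b
    have h1 : b ∈ IntermediateField.adjoin k (Set.range x ∪ Set.range y) := by
      rw [hgen]; exact IntermediateField.mem_top
    have h2 : IsAlgebraic (Algebra.adjoin k (Set.range x ∪ Set.range y)) b := by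
      rw [← a2_mem]
      have h3 : (IntermediateField.adjoin k (Set.range x ∪ Set.range y) : Set F) ⊆
          (AlgebraicIndependent.matroid k F).closure (Set.range x ∪ Set.range y) := by
        intro c hc
        rw [SetLike.mem_coe, IntermediateField.mem_adjoin_iff_div] at hc
        obtain ⟨r, hr, s, hs, rfl⟩ := hc
        rw [a2_mem]
        have hr' : IsAlgebraic (Algebra.adjoin k (Set.range x ∪ Set.range y)) r :=
          isAlgebraic_algebraMap (⟨r, hr⟩ : Algebra.adjoin k (Set.range x ∪ Set.range y))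
        have hs' : IsAlgebraic (Algebra.adjoin k (Set.range x ∪ Set.range y)) s :=
          isAlgebraic_algebraMap (⟨s, hs⟩ : Algebra.adjoin k (Set.range x ∪ Set.range y))
        rw [div_eq_mul_inv]
        exact hr'.mul hs'.inv
      exact h3 h1
    refine a2_trans ?_ h2
    rintro c (⟨i, rfl⟩ | ⟨j, rfl⟩)
    · exact a2_trans (fun c hc => hself _ _ (Or.inl hc)) (hI2 i)
    · exact hself _ _ (Or.inr ⟨j, rfl⟩)
  have hdn : d ≤ n := by
    have h1 : Function.Injective I := hI.injective.of_comp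
    simpa using Fintype.card_le_of_injective I h1
  have hU : finrank F (expSub (k := k) x y) ≤ e := by
    by_contra hcon
    rw [not_le] at hcon
    obtain ⟨v, hv⟩ := exists_linearIndependent_of_le_finrank (R := F)
      (M := expSub (k := k) x y) (n := e + 1) hcon
    choose D hD hDx using fun l => (v l).2
    refine der_bound D x y hy hD ?_ htd hs
    have h1 : LinearIndependent F fun l => ((v l : Fin n → F)) :=
      hv.map' (expSub (k := k) x y).subtype (Submodule.ker_subtype _)
    have h2 : (fun l => ((v l : Fin n → F))) = fun (l : Fin (e + 1)) (i : Fin n) => D l (x i) := by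
      funext l i
      exact hDx l i
    rw [h2] at h1
    exact h1
  obtain ⟨a, ha1, ha2⟩ := exists_rows y hy (x ∘ I) hI hall (by
    rw [htd, Nat.cast_le]; omega) (expSub (k := k) x y) hU e le_rfl
  refine ⟨a, ha1, fun D hD h0 => ?_⟩
  rw [Nat.sub_self, Nat.le_zero, Submodule.finrank_eq_zero] at ha2
  have h1 : (fun i => D (x i)) ∈ (expSub (k := k) x y ⊓ rowSub y a : Submodule F (Fin n → F)) := by
    refine ⟨⟨D, hD, fun i => rfl⟩, fun l => ?_⟩
    have h2 := h0 l
    rw [map_sum] at h2
    rw [← h2]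
    refine Finset.sum_congr rfl fun j _ => ?_
    rw [Derivation.leibniz, Derivation.map_algebraMap, smul_zero, add_zero, smul_eq_mul, hD]
    ring
  rw [ha2, Submodule.mem_bot] at h1
  have hDx : ∀ i, D (x i) = 0 := fun i => congrFun h1 i
  let D' : Unit → Derivation k F F := fun _ => D
  have h3 : IntermediateField.adjoin k (Set.range x ∪ Set.range y) ≤ consts D' := by
    rw [IntermediateField.adjoin_le_iff]
    rintro c (⟨i, rfl⟩ | ⟨i, rfl⟩)
    · exact mem_consts.2 fun _ => hDx i
    · refine mem_consts.2 fun _ => ?_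
      show D (y i) = 0
      rw [hD, hDx, mul_zero]
  ext b
  have h4 : b ∈ consts D' := h3 (by rw [hgen]; exact IntermediateField.mem_top)
  exact mem_consts.1 h4 ()

/-- SC2-4: completion of an independent family by some of the `y j`. -/
theorem exists_compl {k F ι : Type} [Field k] [Field F] [Algebra k F] [Fintype ι] {n : ℕ}
    (y : Fin n → F) (u : ι → F) (hu : AlgebraicIndependent k u)
    (hgen : ∀ b : F, IsAlgebraic (Algebra.adjoin k (Set.range u ∪ Set.range y)) b) (c : ℕ)
    (htd : ((Fintype.card ι + c : ℕ) : Cardinal) ≤ Algebra.trdeg k F) :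
    ∃ J : Fin c → Fin n, AlgebraicIndependent k (Sum.elim u (y ∘ J)) := by
  classical
  have key : ∀ l ≤ c, ∃ J : Fin l → Fin n, AlgebraicIndependent k (Sum.elim u (y ∘ J)) := by
    intro l
    induction l with
    | zero =>
      intro _
      refine ⟨fun i => i.elim0, ?_⟩
      have h1 : (Sum.elim u (y ∘ fun i : Fin 0 => (i.elim0 : Fin n))) =
          u ∘ (Equiv.sumEmpty ι (Fin 0)) := by
        funext i
        rcases i with i | i
        · rfl
        · exact i.elim0
      rw [h1]
      exact hu.comp _ (Equiv.injective _)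
    | succ l ih =>
      intro hl
      obtain ⟨J, hJ⟩ := ih (by omega)
      have hself : ∀ (s : Set F) (b : F), b ∈ s → IsAlgebraic (Algebra.adjoin k s) b := fun s b hb =>
        isAlgebraic_algebraMap (⟨b, Algebra.subset_adjoin hb⟩ : Algebra.adjoin k s)
      obtain ⟨j, hj⟩ : ∃ j, Transcendental (Algebra.adjoin k (Set.range (Sum.elim u (y ∘ J)))) (y j) := by
        by_contra hcon
        have hcon' : ∀ j, IsAlgebraic (Algebra.adjoin k (Set.range (Sum.elim u (y ∘ J)))) (y j) := by
          intro j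
          by_contra h
          exact hcon ⟨j, h⟩
        have halg : ∀ b : F, IsAlgebraic (Algebra.adjoin k (Set.range (Sum.elim u (y ∘ J)))) b := by
          intro b
          refine a2_trans ?_ (hgen b)
          rintro c (⟨i, rfl⟩ | ⟨j, rfl⟩)
          · exact hself _ _ ⟨Sum.inl i, rfl⟩
          · exact hcon' j
        have hA : Algebra.IsAlgebraic (Algebra.adjoin k (Set.range (Sum.elim u (y ∘ J)))) F := ⟨halg⟩
        have hb : IsTranscendenceBasis k (Sum.elim u (y ∘ J)) := hJ.isTranscendenceBasis_iff_isAlgebraic.2 hA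
        have h2 := hb.cardinalMk_eq_trdeg
        rw [Cardinal.mk_sum, Cardinal.mk_fintype, Cardinal.mk_fin, Cardinal.lift_natCast,
          Cardinal.lift_natCast, ← Nat.cast_add] at h2
        rw [← h2, Nat.cast_le] at htd
        omega
      refine ⟨Fin.snoc (α := fun _ => Fin n) J j, ?_⟩
      have h1 := algInd_snoc hJ hj
      have h2 : y ∘ (Fin.snoc (α := fun _ => Fin n) J j : Fin (l + 1) → Fin n) =
          (Fin.snoc (y ∘ J) (y j) : Fin (l + 1) → F) := by
        funext i
        induction i using Fin.lastCases with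
        | last => simp
        | cast i => simp
      rw [h2]
      exact h1
  exact key c le_rfl

end Pool.Agent.Lib.MP_209724_lc.SC2
end

section

namespace Pool.Agent.Lib.MP_209724_lc.SC2

open MvPolynomial Pool.Agent.Lib.MP_209724_lc.SC

/-- SC2-7: the dimension of the specialised variety. -/
theorem trdeg_kerS {n : ℕ} (ξ η : Fin n → Om n)
    (h : ∀ i : Fin n, (omX i : Om n) ∈ Set.range ξ ∪ Set.range η) :
    Algebra.trdeg ℂ (MvPolynomial (Fin n ⊕ Fin n) ℂ ⧸ kerS ξ η) = n := by
  classical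
  have e1 := Ideal.quotientKerEquivRange (aeval (Sum.elim ξ η) :
        MvPolynomial (Fin n ⊕ Fin n) ℂ →ₐ[ℂ] Om n)
  have hrange : (aeval (Sum.elim ξ η) : MvPolynomial (Fin n ⊕ Fin n) ℂ →ₐ[ℂ] Om n).range =
      Algebra.adjoin ℂ (Set.range (Sum.elim ξ η)) := (Algebra.adjoin_range_eq_range_aeval _ _).symm
  have e2 := Subalgebra.equivOfEq _ _ hrange
  have h1 : Algebra.trdeg ℂ (MvPolynomial (Fin n ⊕ Fin n) ℂ ⧸ kerS ξ η) =
      Algebra.trdeg ℂ (Algebra.adjoin ℂ (Set.range (Sum.elim ξ η))) := (e1.trans e2).trdeg_eq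
  rw [h1]
  apply le_antisymm
  · obtain ⟨T, hT, hcard⟩ := exists_coord_basis (k := ℂ) (Sum.elim ξ η)
    rw [← hcard]
    have : Fintype T := Fintype.ofFinite T
    have h2 : (AlgebraicIndependent.matroid ℂ (Om n)).Indep
        (Set.range fun i : T => (Sum.elim ξ η) i) :=
      AlgebraicIndependent.matroid_indep_iff.2 hT.coe_range
    have h3 : OV.td (Set.range fun i : T => (Sum.elim ξ η) i) =
        (Set.range fun i : T => (Sum.elim ξ η) i).encard := h2.eRk_eq_encard
    have h4 := td_le_Om (Set.range fun i : T => (Sum.elim ξ η) i)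
    rw [h3, ← Set.image_univ, hT.injective.encard_image, Set.encard_univ,
      ENat.card_eq_coe_fintype_card] at h4
    rw [Cardinal.mk_fintype, Nat.cast_le]
    exact_mod_cast h4
  · let s : Fin n → Algebra.adjoin ℂ (Set.range (Sum.elim ξ η)) := fun i =>
      ⟨omX i, Algebra.subset_adjoin (by rw [Set.Sum.elim_range]; exact h i)⟩
    have h2 : AlgebraicIndependent ℂ s :=
      AlgebraicIndependent.of_comp (Algebra.adjoin ℂ _).val (algInd_omX n)
    have h3 := h2.cardinalMk_le_trdeg
    simpa using h3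

/-- SC2-8: exponential points with given values of the linear forms. -/
theorem exists_point {d c e : ℕ} (k : Type) [Field k] [Algebra k ℂ]
    (Q : Ideal (MvPolynomial (Fin (d + c) ⊕ Fin (d + c)) ℂ)) [Q.IsPrime]
    (hy0 : ∀ i, yK k Q i ≠ 0)
    (Ik : Ideal (MvPolynomial (Fin (d + c) ⊕ Fin (d + c)) k))
    (hQ : Q = Ik.map (map (algebraMap k ℂ)))
    {L : Type} [Field L] [Algebra ℂ L] (x y : Fin (d + c) → L)
    (hxy : ∀ f : MvPolynomial (Fin (d + c) ⊕ Fin (d + c)) ℂ, aeval (Sum.elim x y) f = 0 ↔ f ∈ Q)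
    (hdens : ∀ Q' : Ideal (MvPolynomial (Fin (d + c) ⊕ Fin (d + c)) ℂ), Q'.IsPrime →
      (∀ i, (X (Sum.inr i) : MvPolynomial (Fin (d + c) ⊕ Fin (d + c)) ℂ) ∉ Q') →
      Algebra.trdeg ℂ (MvPolynomial (Fin (d + c) ⊕ Fin (d + c)) ℂ ⧸ Q') = ((d + c : ℕ) : Cardinal) →
      (∀ f : MvPolynomial (Fin (d + c)) ℂ, rename Sum.inl f ∈ Q' ↔ rename Sum.inl f ∈ Q) →
      ∀ D ∉ Q', ∃ p : Fin (d + c) → ℂ,
        (∀ f ∈ Q', eval (Sum.elim p fun i => Complex.exp (p i)) f = 0) ∧
        eval (Sum.elim p fun i => Complex.exp (p i)) D ≠ 0)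
    (htd : Algebra.trdeg k (FK k Q) = ((d + c + e : ℕ) : Cardinal))
    (I : Fin d → Fin (d + c))
    (hI2 : ∀ i, IsAlgebraic (Algebra.adjoin k (Set.range (xK k Q ∘ I))) (xK k Q i))
    (a : Fin e → Fin (d + c) → k)
    (ha : AlgebraicIndependent k (Sum.elim (xK k Q ∘ I) fun l =>
      ∑ j, algebraMap k (FK k Q) (a l j) * yK k Q j))
    (t : Fin e → ℂ) (ht : AlgebraicIndependent k t)
    (dd : MvPolynomial (Fin (d + c) ⊕ Fin (d + c)) k)
    (hdd : aeval (Sum.elim (xK k Q) (yK k Q)) dd ≠ 0) :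
    ∃ p : Fin (d + c) → ℂ,
      (∀ f : MvPolynomial (Fin (d + c) ⊕ Fin (d + c)) k,
        aeval (Sum.elim (xK k Q) (yK k Q)) f = 0 → expG f p = 0) ∧ expG dd p ≠ 0 ∧
      ∀ l, expG (∑ j, C (a l j) * X (Sum.inr j)) p = t l := by
  classical
  have hself : ∀ (s : Set (FK k Q)) (b : FK k Q), b ∈ s → IsAlgebraic (Algebra.adjoin k s) b :=
    fun s b hb => isAlgebraic_algebraMap (⟨b, Algebra.subset_adjoin hb⟩ : Algebra.adjoin k s)
  obtain ⟨g, hg⟩ : ∃ g : Fin e → FK k Q, g = fun l =>
    ∑ j, algebraMap k (FK k Q) (a l j) * yK k Q j := ⟨_, rfl⟩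
  rw [← hg] at ha
  -- everything is algebraic over `k(x ∘ I, y)`
  have hall : ∀ b : FK k Q, IsAlgebraic (Algebra.adjoin k
      (Set.range (Sum.elim (xK k Q ∘ I) g) ∪ Set.range (yK k Q))) b := by
    intro b
    have h1 : b ∈ IntermediateField.adjoin k (Set.range (xK k Q) ∪ Set.range (yK k Q)) := by
      rw [gen_FK]; exact IntermediateField.mem_top
    rw [IntermediateField.mem_adjoin_iff_div] at h1
    have h2 : IsAlgebraic (Algebra.adjoin k (Set.range (xK k Q) ∪ Set.range (yK k Q))) b := by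
      obtain ⟨r, hr, s, hs, rfl⟩ := h1
      have hr' : IsAlgebraic (Algebra.adjoin k (Set.range (xK k Q) ∪ Set.range (yK k Q))) r :=
        isAlgebraic_algebraMap (⟨r, hr⟩ : Algebra.adjoin k _)
      have hs' : IsAlgebraic (Algebra.adjoin k (Set.range (xK k Q) ∪ Set.range (yK k Q))) s :=
        isAlgebraic_algebraMap (⟨s, hs⟩ : Algebra.adjoin k _)
      rw [div_eq_mul_inv]
      exact hr'.mul hs'.inv
    refine a2_trans ?_ h2
    rintro c (⟨i, rfl⟩ | ⟨j, rfl⟩)
    · refine a2_trans (fun c hc => hself _ _ (Or.inl ?_)) (hI2 i)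
      obtain ⟨j, rfl⟩ := hc
      exact ⟨Sum.inl j, rfl⟩
    · exact hself _ _ (Or.inr ⟨j, rfl⟩)
  obtain ⟨J, hJ⟩ := exists_compl (yK k Q) (Sum.elim (xK k Q ∘ I) g) ha hall c (by
    rw [htd, Nat.cast_le, Fintype.card_sum, Fintype.card_fin, Fintype.card_fin]
    omega)
  -- the transcendence basis
  obtain ⟨z, hz⟩ : ∃ z : Fin (d + c) → FK k Q, z = Fin.append (xK k Q ∘ I) (yK k Q ∘ J) := ⟨_, rfl⟩
  have hzg : AlgebraicIndependent k (Sum.elim z g) := by
    let f : Fin (d + c) ⊕ Fin e → (Fin d ⊕ Fin e) ⊕ Fin c :=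
      Sum.elim (fun i => Fin.addCases (motive := fun _ => (Fin d ⊕ Fin e) ⊕ Fin c)
        (fun i => Sum.inl (Sum.inl i)) (fun j => Sum.inr j) i) (fun l => Sum.inl (Sum.inr l))
    let f' : (Fin d ⊕ Fin e) ⊕ Fin c → Fin (d + c) ⊕ Fin e :=
      Sum.elim (Sum.elim (fun i => Sum.inl (Fin.castAdd c i)) (fun l => Sum.inr l))
        (fun j => Sum.inl (Fin.natAdd d j))
    have hf : Function.LeftInverse f' f := by
      rintro (i | l)
      · induction i using Fin.addCases with
        | left i => simp [f, f']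
        | right j => simp [f, f']
      · rfl
    have h1 := hJ.comp f hf.injective
    have h2 : Sum.elim (Sum.elim (xK k Q ∘ I) g) (yK k Q ∘ J) ∘ f = Sum.elim z g := by
      funext i
      rcases i with i | l
      · rw [hz]
        induction i using Fin.addCases with
        | left i => simp [f]
        | right j => simp [f]
      · rfl
    rw [h2] at h1
    exact h1
  obtain ⟨σ, hσ, hσz, hσg⟩ := exists_spec htd z g hzg t ht
  have hσI : ∀ i, σ (xK k Q (I i)) = omX (Fin.castAdd c i) := by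
    intro i
    rw [← hσz, hz, Fin.append_left]
    rfl
  have hσJ : ∀ j, σ (yK k Q (J j)) = omX (Fin.natAdd d j) := by
    intro j
    rw [← hσz, hz, Fin.append_right]
    rfl
  have hind : AlgebraicIndependent ℂ fun i => σ (xK k Q (I i)) := by
    have h1 := (algInd_omX (d + c)).comp (Fin.castAdd c : Fin d → Fin (d + c))
      (Fin.castAdd_injective d c)
    have h2 : (omX : Fin (d + c) → Om (d + c)) ∘ Fin.castAdd c = fun i => σ (xK k Q (I i)) := by
      funext i
      exact (hσI i).symm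
    rw [h2] at h1
    exact h1
  have hprime : (kerS (fun i => σ (xK k Q i)) fun i => σ (yK k Q i)).IsPrime := by
    unfold kerS
    exact RingHom.ker_isPrime _
  have hD : map (algebraMap k ℂ) dd ∉ kerS (fun i => σ (xK k Q i)) fun i => σ (yK k Q i) := by
    rw [mem_kerS, aeval_spec (xK k Q) (yK k Q) σ hσ]
    exact fun h0 => hdd ((map_eq_zero σ).1 h0)
  obtain ⟨p, hp1, hp2⟩ := hdens _ hprime (by
    intro i
    rw [mem_kerS, aeval_X, Sum.elim_inr]
    exact fun h0 => hy0 i ((map_eq_zero σ).1 h0)) (trdeg_kerS _ _ (by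
    intro i
    induction i using Fin.addCases with
    | left i => exact Or.inl ⟨I i, hσI i⟩
    | right j => exact Or.inr ⟨J j, hσJ j⟩)) (fun f =>
      same_x k Q Ik hQ x y hxy I hI2 σ hσ hind f) _ hD
  refine ⟨p, fun f hf => ?_, ?_, fun l => ?_⟩
  · rw [← eval_map_expG]
    apply hp1
    rw [mem_kerS, aeval_spec (xK k Q) (yK k Q) σ hσ, hf, map_zero]
  · rw [← eval_map_expG]
    exact hp2
  · have h6 := hp1 (map (algebraMap k ℂ) (∑ j, C (a l j) * X (Sum.inr j)) - C (t l)) (by
      rw [mem_kerS, map_sub, aeval_spec (xK k Q) (yK k Q) σ hσ, aeval_C]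
      have h7 : aeval (Sum.elim (xK k Q) (yK k Q))
          (∑ j, C (a l j) * X (Sum.inr j) : MvPolynomial (Fin (d + c) ⊕ Fin (d + c)) k) = g l := by
        rw [hg, map_sum]
        refine Finset.sum_congr rfl fun j _ => ?_
        rw [map_mul, aeval_C, aeval_X, Sum.elim_inr]
      rw [h7, hσg, sub_self])
    rw [map_sub, eval_C, sub_eq_zero, eval_map_expG] at h6
    exact h6

end Pool.Agent.Lib.MP_209724_lc.SC2
end

section

/-!
# From Zariski dense to generic exponential points

`final_general`: let `V` be strongly rotund (strict), of dimension `n + e`, and suppose that the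
exponential points are Zariski dense in every `V'` of dimension `n` with the same Zariski closure of
the projection to `ℂ ^ n`. Then `V` has exponential points which are generic over a given countable
field of definition.
-/

namespace Pool.Agent.Lib.MP_209724_lc.SC2

open MvPolynomial Pool.Agent.Lib.MP_209724_lc.SC

/-- a coordinate transcendence basis -/
theorem exists_coords {k F : Type} [Field k] [Field F] [Algebra k F] {n : ℕ} (x : Fin n → F) :
    ∃ (d : ℕ) (I : Fin d → Fin n), AlgebraicIndependent k (x ∘ I) ∧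
      ∀ i, IsAlgebraic (Algebra.adjoin k (Set.range (x ∘ I))) (x i) := by
  classical
  obtain ⟨T, hT, hcard⟩ := exists_coord_basis (k := k) x
  have : Fintype T := Fintype.ofFinite T
  let e := (Fintype.equivFin T).symm
  let I : Fin (Fintype.card T) → Fin n := fun a => (e a : Fin n)
  have hxI : AlgebraicIndependent k (x ∘ I) := hT.comp e e.injective
  refine ⟨Fintype.card T, I, hxI, fun i => ?_⟩
  set A := Algebra.adjoin k (Set.range x) with hA
  let v : Fin n → A := fun i => ⟨x i, Algebra.subset_adjoin (Set.mem_range_self i)⟩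
  have hinj : Function.Injective A.val := Subtype.val_injective
  have hvI : AlgebraicIndependent k (v ∘ I) := by
    have h1 : x ∘ I = A.val ∘ (v ∘ I) := rfl
    rw [h1] at hxI
    exact (A.val.algebraicIndependent_iff hinj).1 hxI
  have hbas : IsTranscendenceBasis k (v ∘ I) :=
    hvI.isTranscendenceBasis_of_trdeg_le_of_finite (by
      rw [← hcard, Cardinal.mk_fintype, Cardinal.mk_fin])
  have halg := hbas.isAlgebraic
  have h2 : IsAlgebraic (Algebra.adjoin k (Set.range (v ∘ I))) (v i) := halg.isAlgebraic (v i)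
  have hmap : ∀ a : Algebra.adjoin k (Set.range (v ∘ I)), A.val a.1 ∈ Algebra.adjoin k (Set.range (x ∘ I)) := by
    intro a
    have h3 : (Algebra.adjoin k (Set.range (v ∘ I))).map A.val = Algebra.adjoin k (Set.range (x ∘ I)) := by
      rw [AlgHom.map_adjoin, ← Set.range_comp]
      rfl
    rw [← h3]
    exact ⟨a.1, a.2, rfl⟩
  let f : Algebra.adjoin k (Set.range (v ∘ I)) →ₐ[k] Algebra.adjoin k (Set.range (x ∘ I)) :=
    (A.val.comp (Algebra.adjoin k (Set.range (v ∘ I))).val).codRestrict _ hmap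
  have hf : Function.Injective f.toRingHom := by
    intro a b hab
    have h4 : A.val a.1 = A.val b.1 :=
      congrArg (fun c : Algebra.adjoin k (Set.range (x ∘ I)) => (c : F)) hab
    exact Subtype.ext (hinj h4)
  exact h2.ringHom_of_comp_eq f.toRingHom A.val.toRingHom hf rfl

/-- the transcendence degree of the algebra generated by a generic point -/
theorem trdeg_adjoin_gen {n : ℕ} (Q : Ideal (MvPolynomial (Fin n ⊕ Fin n) ℂ)) [Q.IsPrime]
    {L : Type} [Field L] [Algebra ℂ L] (x y : Fin n → L)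
    (hxy : ∀ f : MvPolynomial (Fin n ⊕ Fin n) ℂ, aeval (Sum.elim x y) f = 0 ↔ f ∈ Q) :
    Algebra.trdeg ℂ (Algebra.adjoin ℂ (Set.range x ∪ Set.range y)) =
      Algebra.trdeg ℂ (MvPolynomial (Fin n ⊕ Fin n) ℂ ⧸ Q) := by
  have hker : RingHom.ker (aeval (Sum.elim x y) :
      MvPolynomial (Fin n ⊕ Fin n) ℂ →ₐ[ℂ] L) = Q := by
    ext f
    exact hxy f
  have hrange : (aeval (Sum.elim x y) :
      MvPolynomial (Fin n ⊕ Fin n) ℂ →ₐ[ℂ] L).range =
      Algebra.adjoin ℂ (Set.range x ∪ Set.range y) := by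
    rw [← Algebra.adjoin_range_eq_range_aeval, Set.Sum.elim_range]
  have e1 := Ideal.quotientKerEquivRange (aeval (Sum.elim x y) :
      MvPolynomial (Fin n ⊕ Fin n) ℂ →ₐ[ℂ] L)
  have e2 := Subalgebra.equivOfEq _ _ hrange
  have e3 := Ideal.quotientEquivAlgOfEq ℂ hker
  exact ((e3.symm.trans e1).trans e2).trdeg_eq.symm

/-- SC2: Zariski dense exponential points give generic ones. -/
theorem final_general {n : ℕ} (hn : 0 < n) (Q : Ideal (MvPolynomial (Fin n ⊕ Fin n) ℂ))
    [Q.IsPrime]
    (hy0 : ∀ i, (X (Sum.inr i) : MvPolynomial (Fin n ⊕ Fin n) ℂ) ∉ Q)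
    {L : Type} [Field L] [Algebra ℂ L] (x y : Fin n → L)
    (hxy : ∀ f : MvPolynomial (Fin n ⊕ Fin n) ℂ, aeval (Sum.elim x y) f = 0 ↔ f ∈ Q)
    (hstr : ∀ B : Matrix (Fin n) (Fin n) ℤ, B ≠ 0 →
      ((B.map (Int.cast : ℤ → ℚ)).rank : Cardinal) <
        Algebra.trdeg ℂ (Algebra.adjoin ℂ (Set.range (fun i => ∑ j, (B i j : L) * x j) ∪
          Set.range fun i => ∏ j, y j ^ B i j)))
    (hdens : ∀ Q' : Ideal (MvPolynomial (Fin n ⊕ Fin n) ℂ), Q'.IsPrime →
      (∀ i, (X (Sum.inr i) : MvPolynomial (Fin n ⊕ Fin n) ℂ) ∉ Q') →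
      Algebra.trdeg ℂ (MvPolynomial (Fin n ⊕ Fin n) ℂ ⧸ Q') = (n : Cardinal) →
      (∀ f : MvPolynomial (Fin n) ℂ, rename Sum.inl f ∈ Q' ↔ rename Sum.inl f ∈ Q) →
      ∀ D ∉ Q', ∃ p : Fin n → ℂ,
        (∀ f ∈ Q', eval (Sum.elim p fun i => Complex.exp (p i)) f = 0) ∧
        eval (Sum.elim p fun i => Complex.exp (p i)) D ≠ 0)
    (K : Type) [Field K] [Algebra K ℂ] [Countable K]
    (I : Ideal (MvPolynomial (Fin n ⊕ Fin n) K)) (hQ : Q = I.map (map (algebraMap K ℂ))) :
    ∃ p : Fin n → ℂ,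
      (∀ f ∈ Q, eval (Sum.elim p fun i => Complex.exp (p i)) f = 0) ∧
      Algebra.trdeg K (Algebra.adjoin K (Set.range p ∪ Set.range fun i => Complex.exp (p i))) =
        Algebra.trdeg ℂ (MvPolynomial (Fin n ⊕ Fin n) ℂ ⧸ Q) := by
  classical
  obtain ⟨N, hN⟩ : ∃ N : ℕ, Algebra.trdeg ℂ
      (MvPolynomial (Fin n ⊕ Fin n) ℂ ⧸ Q) = N :=
    Cardinal.lt_aleph0.1 trdeg_lt_aleph0_of_finiteType
  have hAN : Algebra.trdeg ℂ (Algebra.adjoin ℂ (Set.range x ∪ Set.range y)) = N :=
    (trdeg_adjoin_gen Q x y hxy).trans hN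
  -- `N ≥ n + 1`
  have hNn : n ≤ N := by
    have hB0 : (1 : Matrix (Fin n) (Fin n) ℤ) ≠ 0 := by
      intro h0
      have h1 := congrFun (congrFun h0 ⟨0, hn⟩) ⟨0, hn⟩
      simp at h1
    have h1 := hstr 1 hB0
    have h2 : ((1 : Matrix (Fin n) (Fin n) ℤ).map (Int.cast : ℤ → ℚ)) = 1 := by
      ext i j
      by_cases hij : i = j
      · subst hij; simp
      · simp [Matrix.one_apply_ne hij]
    have h3 : (Set.range fun i => ∑ j, (((1 : Matrix (Fin n) (Fin n) ℤ) i j : ℤ) : L) * x j) =
        Set.range x := by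
      congr 1
      funext i
      rw [Finset.sum_eq_single i (fun j _ hj => by
        rw [Matrix.one_apply_ne hj.symm, Int.cast_zero, zero_mul])
        (fun h => absurd (Finset.mem_univ _) h), Matrix.one_apply_eq, Int.cast_one, one_mul]
    have h4 : (Set.range fun i => ∏ j, y j ^ (1 : Matrix (Fin n) (Fin n) ℤ) i j) =
        Set.range y := by
      congr 1
      funext i
      rw [Finset.prod_eq_single i (fun j _ hj => by
        rw [Matrix.one_apply_ne hj.symm, zpow_zero])
        (fun h => absurd (Finset.mem_univ _) h), Matrix.one_apply_eq, zpow_one]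
    rw [h3, h4, hAN, h2, Matrix.rank_one, Fintype.card_fin, Nat.cast_lt] at h1
    exact h1.le
  obtain ⟨e, rfl⟩ := Nat.exists_eq_add_of_le hNn
  -- the field of constants
  have hc : Countable (algebraicClosure K ℂ) := countable_algClosure K
  have hac : IsAlgClosed (algebraicClosure K ℂ) := isAlgClosed_algClosure K
  set k := algebraicClosure K ℂ with hk
  have hk0 : CharZero k := by
    have := (algebraMap k ℂ).charZero_iff (algebraMap k ℂ).injective
    exact this.2 inferInstance
  have hIK : Q = (I.map (map (algebraMap K k))).map (map (algebraMap k ℂ)) := by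
    rw [Ideal.map_map, hQ]
    congr 1
    refine MvPolynomial.ringHom_ext (fun a => ?_) (fun i => ?_)
    · simp only [RingHom.comp_apply, map_C]
      rfl
    · simp only [RingHom.comp_apply, map_X]
  have htd := trdeg_FK k Q _ hIK
  rw [hN] at htd
  have hs := strict_FK k Q x y hxy hstr
  have hyK : ∀ i, yK k Q i ≠ 0 := fun i h0 => hy0 i (by
    have h1 := (fnK_eq_zero k Q (X (Sum.inr i))).1 h0
    rwa [map_X] at h1)
  obtain ⟨d, J, hJ1, hJ2⟩ := exists_coords (k := k) (xK k Q)
  obtain ⟨a, ha1, ha2⟩ := exists_G (xK k Q) (yK k Q) hyK (gen_FK k Q) htd hs J hJ1 hJ2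
  have hdn : d ≤ n := by
    have h1 : Function.Injective J := hJ1.injective.of_comp
    simpa using Fintype.card_le_of_injective J h1
  obtain ⟨c, rfl⟩ := Nat.exists_eq_add_of_le hdn
  obtain ⟨p, hp1, s, hs1, hs2⟩ := core (xK k Q) (yK k Q) hyK (gen_FK k Q) htd hs
    (fun l => ∑ j, C (a l j) * X (Sum.inr j)) (by
      intro D hD h0
      refine ha2 D hD fun l => ?_
      have h1 := h0 l
      have h2 : aeval (Sum.elim (xK k Q) (yK k Q)) (∑ j, C (a l j) * X (Sum.inr j) :
          MvPolynomial (Fin (d + c) ⊕ Fin (d + c)) k) =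
          ∑ j, algebraMap k (FK k Q) (a l j) * yK k Q j := by
        rw [map_sum]
        refine Finset.sum_congr rfl fun j _ => ?_
        rw [map_mul, aeval_C, aeval_X, Sum.elim_inr]
      rw [h2] at h1
      exact h1)
    (fun t ht dd hdd => exists_point k Q hyK _ hIK x y hxy hdens htd J hJ2 a ha1 t ht dd hdd)
  have hst : IsScalarTower K k ℂ := IsScalarTower.of_algebraMap_eq fun _ => rfl
  exact ⟨p, conclude Q K I hQ k hN p hp1 (by simp) s hs1 hs2⟩

end Pool.Agent.Lib.MP_209724_lc.SC2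
end
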